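import Pool.Agent.W315.LB.Stm
import Pool.Agent.H76R2.TY.Y13

/-!
# Connected `r`-graphs without nontrivial tight cuts are 3-connected
-/

set_option autoImplicit false

namespace Pool.Agent.W209.LB

open Finset H76FC H76TX H76TY Pool.Agent.W315.LB

theorem key {V : Type} [Fintype V] [DecidableEq V] {r : ℕ} {p : V → V → ℕ}
    (h6 : 6 ≤ Fintype.card V) (hr : 1 ≤ r) (hp : RGraph r p) (hn : NoTight r p)
    (D R : Finset V) (u v : V) (huv : u ≠ v) (huD : u ∉ D) (hvD : v ∉ D) (huR : u ∉ R)
    (hvR : v ∉ R) (hDR : Disjoint D R) (hall : ∀ x, x = u ∨ x = v ∨ x ∈ D ∨ x ∈ R)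
    (hno : ∀ a ∈ D, ∀ b ∈ R, p a b = 0) (hD : D.Nonempty) (hR : R.Nonempty) : False := by
  have hsum : ∀ g : V → ℕ, ∑ x, g x = g u + (g v + (∑ x ∈ D, g x + ∑ x ∈ R, g x)) := by
    intro g
    have e : (univ : Finset V) = insert u (insert v (D ∪ R)) := by
      ext x
      simp only [mem_univ, mem_insert, mem_union, true_iff]
      exact hall x
    rw [e, sum_insert, sum_insert, sum_union hDR]
    · simp only [mem_union, not_or]
      exact ⟨hvD, hvR⟩
    · simp only [mem_insert, mem_union, not_or]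
      exact ⟨huv, huD, huR⟩
  have hcard : Fintype.card V = 1 + (1 + (D.card + R.card)) := by
    have := hsum fun _ => 1
    simpa using this
  have hcompl : ∀ (A : Finset V) (g : V → ℕ), ∑ x ∈ A, g x + ∑ x ∈ Aᶜ, g x = ∑ x, g x :=
    fun A g => Finset.sum_add_sum_compl A g
  have hcc : ∀ A : Finset V, A.card + Aᶜ.card = Fintype.card V := fun A =>
    Finset.card_add_card_compl A
  -- parity
  have heven : ¬ Odd (Fintype.card V) := by
    intro ho
    have := hp.odd univ (by simpa using ho)
    simp [cut] at this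
    omega
  have hd1 := hp.reg u
  have hd2 := hp.reg v
  rw [hsum] at hd1 hd2
  rw [hp.loopless u] at hd1
  rw [hp.loopless v, hp.symm v u] at hd2
  have c1 : ∑ x ∈ D, p u x = ∑ x ∈ D, p x u := sum_congr rfl fun x _ => hp.symm _ _
  have c2 : ∑ x ∈ D, p v x = ∑ x ∈ D, p x v := sum_congr rfl fun x _ => hp.symm _ _
  have c3 : ∑ x ∈ R, p u x = ∑ x ∈ R, p x u := sum_congr rfl fun x _ => hp.symm _ _
  have c4 : ∑ x ∈ R, p v x = ∑ x ∈ R, p x v := sum_congr rfl fun x _ => hp.symm _ _
  have z1 : ∀ x ∈ D, ∑ y ∈ R, p x y = 0 := fun x hx => sum_eq_zero fun y hy => hno x hx y hy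
  have z2 : ∀ x ∈ R, ∑ y ∈ D, p x y = 0 := fun x hx => sum_eq_zero fun y hy => by
    rw [hp.symm]; exact hno y hy x hx
  have k1 : cut p D = ∑ x ∈ D, p x u + ∑ x ∈ D, p x v := by
    unfold cut
    rw [← sum_add_distrib]
    refine sum_congr rfl fun x hx => ?_
    have h1 := hcompl D fun y => p x y
    have h2 := hsum fun y => p x y
    have h3 := z1 x hx
    omega
  have k2 : cut p R = ∑ x ∈ R, p x u + ∑ x ∈ R, p x v := by
    unfold cut
    rw [← sum_add_distrib]
    refine sum_congr rfl fun x hx => ?_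
    have h1 := hcompl R fun y => p x y
    have h2 := hsum fun y => p x y
    have h3 := z2 x hx
    omega
  have k3 : cut p (insert u D) = p u v + ∑ x ∈ R, p u x + ∑ x ∈ D, p x v := by
    have e : ∀ x, ∑ y ∈ (insert u D)ᶜ, p x y = p x v + ∑ y ∈ R, p x y := by
      intro x
      have h1 := hcompl (insert u D) fun y => p x y
      have h2 := hsum fun y => p x y
      rw [sum_insert huD] at h1
      omega
    unfold cut
    rw [sum_insert huD, e]
    congr 1
    refine sum_congr rfl fun x hx => ?_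
    rw [e, z1 x hx, add_zero]
  have k4 : cut p (insert v D) = p u v + ∑ x ∈ R, p v x + ∑ x ∈ D, p x u := by
    have e : ∀ x, ∑ y ∈ (insert v D)ᶜ, p x y = p x u + ∑ y ∈ R, p x y := by
      intro x
      have h1 := hcompl (insert v D) fun y => p x y
      have h2 := hsum fun y => p x y
      rw [sum_insert hvD] at h1
      omega
    unfold cut
    rw [sum_insert hvD, e, hp.symm v u]
    congr 1
    refine sum_congr rfl fun x hx => ?_
    rw [e, z1 x hx, add_zero]
  have hDp := hD.card_pos
  have hRp := hR.card_pos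
  rw [Nat.not_odd_iff_even] at heven
  rcases Nat.even_or_odd D.card with hDe | hDo
  · have hRe : Even R.card := by
      rw [hcard] at heven
      obtain ⟨a, ha⟩ := heven
      obtain ⟨b, hb⟩ := hDe
      exact ⟨a - 1 - b, by omega⟩
    have o1 : Odd (insert u D).card := by
      rw [card_insert_of_notMem huD]; exact hDe.add_one
    have o2 : Odd (insert v D).card := by
      rw [card_insert_of_notMem hvD]; exact hDe.add_one
    have l1 := hp.odd _ o1
    have l2 := hp.odd _ o2
    have hc := hcc (insert u D)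
    rw [card_insert_of_notMem huD] at hc
    obtain ⟨b, hb⟩ := hDe
    obtain ⟨a, ha⟩ := hRe
    rcases hn _ o1 (by omega) with h | h
    · rw [card_insert_of_notMem huD] at h
      omega
    · omega
  · have hRo : Odd R.card := by
      rw [hcard] at heven
      obtain ⟨a, ha⟩ := heven
      obtain ⟨b, hb⟩ := hDo
      exact ⟨a - 2 - b, by omega⟩
    have l1 := hp.odd _ hDo
    have l2 := hp.odd _ hRo
    have hc1 := hcc D
    have hc2 := hcc R
    have h1 := hn _ hDo (by omega)
    have h2 := hn _ hRo (by omega)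
    omega

theorem conn3 : S_conn3 := by
  intro V _ _ r p h6 hr hp hn _ u v huv
  classical
  by_contra hcon
  have hne : Nonempty {x : V | x ≠ u ∧ x ≠ v} := by
    by_contra hemp
    have : (univ : Finset V) ⊆ {u, v} := by
      intro x _
      by_contra hx
      simp only [mem_insert, mem_singleton, not_or] at hx
      exact hemp ⟨⟨x, hx⟩⟩
    have h1 := card_le_card this
    have h2 := card_le_two (a := u) (b := v)
    rw [card_univ] at h1
    omega
  obtain ⟨S, ⟨a, ha⟩, ⟨b, hb⟩, hS⟩ := Y13.split _ hcon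
  have hno : ∀ x y : {x : V | x ≠ u ∧ x ≠ v}, S x → ¬ S y → p x y = 0 := by
    intro x y hx hy
    by_contra h
    have hxy : (x : V) ≠ y := by
      intro h'
      exact hy (Subtype.ext h' ▸ hx)
    have hadj : ((gr p).induce {x : V | x ≠ u ∧ x ≠ v}).Adj x y :=
      Y13.adj_gr p x y hxy (Nat.pos_of_ne_zero h)
    exact hy ((hS x y hadj).mp hx)
  refine key h6 hr hp hn
    ((univ.filter S).map (Function.Embedding.subtype _))
    ((univ.filter fun x => ¬ S x).map (Function.Embedding.subtype _)) u v huv ?_ ?_ ?_ ?_ ?_ ?_ ?_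
    ?_ ?_
  · intro h
    obtain ⟨x, _, hx⟩ := mem_map.mp h
    exact x.2.1 hx
  · intro h
    obtain ⟨x, _, hx⟩ := mem_map.mp h
    exact x.2.2 hx
  · intro h
    obtain ⟨x, _, hx⟩ := mem_map.mp h
    exact x.2.1 hx
  · intro h
    obtain ⟨x, _, hx⟩ := mem_map.mp h
    exact x.2.2 hx
  · rw [disjoint_map]
    exact disjoint_filter_filter_not _ _ _
  · intro x
    by_cases hxu : x = u
    · exact Or.inl hxu
    by_cases hxv : x = v
    · exact Or.inr (Or.inl hxv)
    right
    right
    by_cases hs : S ⟨x, hxu, hxv⟩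
    · exact Or.inl (mem_map.mpr ⟨⟨x, hxu, hxv⟩, by simp [hs], rfl⟩)
    · exact Or.inr (mem_map.mpr ⟨⟨x, hxu, hxv⟩, by simp [hs], rfl⟩)
  · intro x hx y hy
    obtain ⟨x', hx', rfl⟩ := mem_map.mp hx
    obtain ⟨y', hy', rfl⟩ := mem_map.mp hy
    exact hno x' y' (mem_filter.mp hx').2 (mem_filter.mp hy').2
  · exact ⟨a, mem_map.mpr ⟨a, by simp [ha], rfl⟩⟩
  · exact ⟨b, mem_map.mpr ⟨b, by simp [hb], rfl⟩⟩

end Pool.Agent.W209.LB
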